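import Pool.Agent.H75.OM.TA

/-!
# Omnipotent for quantum computers, useless for circuits: the code is injective
-/

set_option autoImplicit false

namespace Pool.Agent.H68.OMQ

open Pool.Agent.H75.OM

theorem enc_at (s ω : ℕ) (w : List Bool) (i j : ℕ) (hj : j < s + ω + 2) :
    enc s ω w i ⟨j, hj⟩ =
      if j < w.length then w.getD j false else decide (j = w.length ∨ j = s + 1 + i) := rfl

theorem pf_ENC : T_ENC := by
  intro s ω w w' i i' hw hw' hi hi' h
  have E : ∀ j, j < s + ω + 2 →
      (if j < w.length then w.getD j false else decide (j = w.length ∨ j = s + 1 + i)) =
      (if j < w'.length then w'.getD j false else decide (j = w'.length ∨ j = s + 1 + i')) := by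
    intro j hj
    rw [← enc_at s ω w i j hj, ← enc_at s ω w' i' j hj, h]
  have h1 : i = i' := by
    have := E (s + 1 + i) (by omega)
    rw [if_neg (by omega), if_neg (by omega)] at this
    have h2 : decide (s + 1 + i = w.length ∨ s + 1 + i = s + 1 + i) = true := by
      rw [decide_eq_true_eq]; exact Or.inr rfl
    rw [h2] at this
    have h3 := of_decide_eq_true this.symm
    omega
  have h2 : w.length = w'.length := by
    rcases lt_trichotomy w.length w'.length with hlt | heq | hlt
    · exfalso
      have := E w'.length (by omega)
      rw [if_neg (by omega), if_neg (by omega)] at this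
      have h3 : decide (w'.length = w'.length ∨ w'.length = s + 1 + i') = true := by
        rw [decide_eq_true_eq]; exact Or.inl rfl
      rw [h3] at this
      have h4 := of_decide_eq_true this
      omega
    · exact heq
    · exfalso
      have := E w.length (by omega)
      rw [if_neg (by omega), if_neg (by omega)] at this
      have h3 : decide (w.length = w.length ∨ w.length = s + 1 + i) = true := by
        rw [decide_eq_true_eq]; exact Or.inl rfl
      rw [h3] at this
      have h4 := of_decide_eq_true this.symm
      omega
  refine ⟨?_, h1⟩
  apply List.ext_getElem h2
  intro j hj hj'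
  have := E j (by omega)
  rw [if_pos hj, if_pos hj', List.getD_eq_getElem _ _ hj, List.getD_eq_getElem _ _ hj'] at this
  exact this

end Pool.Agent.H68.OMQ
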